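import Mathlib
import Pool.Agent.Y494.PN.Defs

/-!
# Project PN: the sum over the labellings of the star product
-/

set_option autoImplicit false
set_option linter.unusedSectionVars false

namespace Pool.Agent.Y945.PN

open Polynomial Pool.Agent.Results.MP_daa8b9_co.PenroseMinusOne Pool.Agent.Y494.PN

/-- summation over the two parts -/
theorem collapse {α β U V : Type} [Fintype α] [Fintype β] [Fintype U] [Fintype V]
    (f : α → U) (g : U → β → V) (a : α → V → ℤ) (b : U → β → ℤ)
    (P : α → U → Prop) [∀ x u, Decidable (P x u)] (hP : ∀ x u, P x u ↔ f x = u)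
    (Q : U → V → β → Prop) [∀ u v y, Decidable (Q u v y)] (hQ : ∀ u v y, Q u v y ↔ v = g u y) :
    ∑ u, ∑ v, (∑ x, if P x u then a x v else 0) * (∑ y, if Q u v y then b u y else 0) =
      ∑ x, ∑ y, a x (g (f x) y) * b (f x) y := by
  have h1 : ∀ u v, (∑ x, if P x u then a x v else 0) * (∑ y, if Q u v y then b u y else 0) =
      ∑ x, ∑ y, (if P x u then a x v else 0) * (if Q u v y then b u y else 0) := by
    intro u v
    rw [Finset.sum_mul_sum]
  have h2 : ∀ u, ∑ v, (∑ x, if P x u then a x v else 0) * (∑ y, if Q u v y then b u y else 0) =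
      ∑ x, ∑ y, if P x u then a x (g u y) * b u y else 0 := by
    intro u
    rw [Finset.sum_congr rfl fun v _ => h1 u v, Finset.sum_comm]
    refine Finset.sum_congr rfl fun x _ => ?_
    rw [Finset.sum_comm]
    refine Finset.sum_congr rfl fun y _ => ?_
    rw [Finset.sum_eq_single (g u y)]
    · rw [if_pos ((hQ u _ y).2 rfl)]
      split_ifs <;> simp
    · intro v _ hv
      rw [if_neg (fun h => hv ((hQ u v y).1 h)), mul_zero]
    · intro h
      exact absurd (Finset.mem_univ _) h
  rw [Finset.sum_congr rfl fun u _ => h2 u, Finset.sum_comm]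
  refine Finset.sum_congr rfl fun x _ => ?_
  rw [Finset.sum_comm]
  refine Finset.sum_congr rfl fun y _ => ?_
  rw [Finset.sum_eq_single (f x)]
  · rw [if_pos ((hP x _).2 rfl)]
  · intro u _ hu
    rw [if_neg (fun h => hu ((hP x u).1 h).symm)]
  · intro h
    exact absurd (Finset.mem_univ _) h

variable {E : Type} [Fintype E] [DecidableEq E]

/-- the labelling with the two given parts -/
def glue {N : ℕ} (l : E × Bool → Fin N) (m : Fin 18 × Bool → Fin N) :
    (E ⊕ Fin 18) × Bool → Fin N :=
  fun z => Sum.elim (fun e => l (e, z.2)) (fun t => m (t, z.2)) z.1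

/-- the labellings and the pairs of labellings -/
def glueEquiv (E : Type) (N : ℕ) : ((E ⊕ Fin 18) × Bool → Fin N) ≃
    (E × Bool → Fin N) × (Fin 18 × Bool → Fin N) where
  toFun l := (fun x => l (Sum.inl x.1, x.2), fun y => l (Sum.inr y.1, y.2))
  invFun q := fun z => Sum.elim (fun e => q.1 (e, z.2)) (fun t => q.2 (t, z.2)) z.1
  left_inv := by
    intro l
    funext z
    rcases z with ⟨e | t, b⟩ <;> rfl
  right_inv := by
    intro q
    rfl

omit [DecidableEq E] in
theorem glue_old {N : ℕ} (l : E × Bool → Fin N) (m : Fin 18 × Bool → Fin N) (x : E × Bool) :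
    glue l m (old x) = l x := rfl

theorem glue_emb (G : PlaneCubicGraph E) (p : E × Bool) {N : ℕ} (l : E × Bool → Fin N)
    (m : Fin 18 × Bool → Fin N) (y : Fin 3 ⊕ (Fin 18 × Bool)) :
    glue l m (emb G p y) = Sum.elim (fun i => l (hh G p i)) m y := by
  rcases y with i | h <;> rfl

theorem bb_hh (G : PlaneCubicGraph E) (p : E × Bool) {N : ℕ} (l : E × Bool → Fin N)
    (v : Fin 3 → Fin N) (i : Fin 3) : bb G p l v (hh G p i) = v i := by
  have h10 : G.rot p ≠ p := fun h => absurd (hh_inj G p (a₁ := 1) (a₂ := 0) h) (by decide)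
  have h20 : G.rot (G.rot p) ≠ p := fun h =>
    absurd (hh_inj G p (a₁ := 2) (a₂ := 0) h) (by decide)
  have h21 : G.rot (G.rot p) ≠ G.rot p := fun h =>
    absurd (hh_inj G p (a₁ := 2) (a₂ := 1) h) (by decide)
  have hc : i = 0 ∨ i = 1 ∨ i = 2 := by
    revert i
    decide
  rcases hc with rfl | rfl | rfl
  · show bb G p l v p = v 0
    unfold bb
    rw [if_pos rfl]
  · show bb G p l v (G.rot p) = v 1
    unfold bb
    rw [if_neg h10, if_pos rfl]
  · show bb G p l v (G.rot (G.rot p)) = v 2
    unfold bb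
    rw [if_neg h20, if_neg h21, if_pos rfl]

theorem bb_ne (G : PlaneCubicGraph E) (p : E × Bool) {N : ℕ} (l : E × Bool → Fin N)
    (v : Fin 3 → Fin N) (x : E × Bool) (h : ∀ i, x ≠ hh G p i) :
    bb G p l v x = l (G.rot.symm x) := by
  have h0 : x ≠ p := h 0
  have h1 : x ≠ G.rot p := h 1
  have h2 : x ≠ G.rot (G.rot p) := h 2
  unfold bb
  rw [if_neg h0, if_neg h1, if_neg h2]

theorem glue_symm_inl (G : PlaneCubicGraph E) (p : E × Bool) {N : ℕ} (l : E × Bool → Fin N)
    (m : Fin 18 × Bool → Fin N) (e : E) (b : Bool) :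
    glue l m ((starRot G p).symm (Sum.inl e, b)) =
      bb G p l (fun i => Sum.elim (fun i => l (hh G p i)) m (rT.symm (Sum.inl i))) (e, b) := by
  by_cases h : ∃ i, (e, b) = hh G p i
  · obtain ⟨i, hi⟩ := h
    have h1 : ((Sum.inl e, b) : (E ⊕ Fin 18) × Bool) = emb G p (Sum.inl i) := by
      show old (e, b) = old (hh G p i)
      rw [hi]
    rw [h1, starRot_symm_emb, glue_emb, hi, bb_hh]
  · push Not at h
    have h1 : ((Sum.inl e, b) : (E ⊕ Fin 18) × Bool) = old (e, b) := rfl
    rw [h1, starRot_symm_old G p _ h, glue_old, bb_ne G p _ _ _ h]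

theorem glue_symm_inr (G : PlaneCubicGraph E) (p : E × Bool) {N : ℕ} (l : E × Bool → Fin N)
    (m : Fin 18 × Bool → Fin N) (t : Fin 18) (b : Bool) :
    glue l m ((starRot G p).symm (Sum.inr t, b)) =
      Sum.elim (fun i => l (hh G p i)) m (rT.symm (Sum.inr (t, b))) := by
  have h1 : ((Sum.inr t, b) : (E ⊕ Fin 18) × Bool) = emb G p (Sum.inr (t, b)) := rfl
  rw [h1, starRot_symm_emb, glue_emb]

theorem star_sum (G : PlaneCubicGraph E) (p : E × Bool) (N : ℕ) :
    ∑ l : (E ⊕ Fin 18) × Bool → Fin N, ∏ e : E ⊕ Fin 18,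
      wt (l (e, false)) (l ((starRot G p).symm (e, false))) (l (e, true))
        (l ((starRot G p).symm (e, true))) = ∑ u, ∑ v, KK G p N u v * TT N u v := by
  have h1 : ∑ u, ∑ v, KK G p N u v * TT N u v =
      ∑ l : E × Bool → Fin N, ∑ m : Fin 18 × Bool → Fin N,
        (∏ e : E, wt (l (e, false))
          (bb G p l (fun i => Sum.elim (fun i => l (hh G p i)) m (rT.symm (Sum.inl i))) (e, false))
          (l (e, true))
          (bb G p l (fun i => Sum.elim (fun i => l (hh G p i)) m (rT.symm (Sum.inl i)))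
            (e, true))) *
        ∏ t : Fin 18, wt (m (t, false))
          (Sum.elim (fun i => l (hh G p i)) m (rT.symm (Sum.inr (t, false))))
          (m (t, true)) (Sum.elim (fun i => l (hh G p i)) m (rT.symm (Sum.inr (t, true)))) := by
    unfold KK TT
    exact collapse (fun l : E × Bool → Fin N => fun i => l (hh G p i))
      (fun (u : Fin 3 → Fin N) (m : Fin 18 × Bool → Fin N) (i : Fin 3) =>
        Sum.elim u m (rT.symm (Sum.inl i)))
      (fun l v => ∏ e : E, wt (l (e, false)) (bb G p l v (e, false)) (l (e, true))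
        (bb G p l v (e, true)))
      (fun u m => ∏ t : Fin 18, wt (m (t, false)) (Sum.elim u m (rT.symm (Sum.inr (t, false))))
        (m (t, true)) (Sum.elim u m (rT.symm (Sum.inr (t, true)))))
      (fun l u => ∀ i, l (hh G p i) = u i) (fun l u => funext_iff.symm)
      (fun u v m => ∀ i, v i = Sum.elim u m (rT.symm (Sum.inl i))) (fun u v m => funext_iff.symm)
  rw [h1, ← Fintype.sum_prod_type']
  refine Fintype.sum_equiv (glueEquiv E N) _ _ fun l => ?_
  obtain ⟨q, rfl⟩ := (glueEquiv E N).symm.surjective l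
  rw [Equiv.apply_symm_apply]
  obtain ⟨l, m⟩ := q
  have h2 : (glueEquiv E N).symm (l, m) = glue l m := rfl
  rw [h2, Fintype.prod_sum_type]
  refine congrArg₂ (· * ·) ?_ ?_
  · refine Finset.prod_congr rfl fun e _ => ?_
    rw [glue_symm_inl, glue_symm_inl]
    rfl
  · refine Finset.prod_congr rfl fun t _ => ?_
    rw [glue_symm_inr, glue_symm_inr]
    rfl

end Pool.Agent.Y945.PN
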